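import Pool.Agent.Work.MP_db9399_all.Interface

/-!
# Block DSM: the small events of the dense phase
-/

set_option autoImplicit false
set_option linter.unusedSectionVars false

namespace Pool.Agent.Work.MP_db9399_all

open Finset Classical

universe u

namespace DSM

variable {V : Type u} [Fintype V] (X : DCtx V)

/-- atoms -/
abbrev Atm (X : DCtx V) := V × Fin (X.Δ + 1) × Fin (X.Δ + 1)

/-- the atom of a vertex -/
noncomputable def at' (z : V) (b : Fin (X.Δ + 1)) : Atm X := ((X.blk z).getD z, X.idx z, b)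

/-- the palette -/
noncomputable def eb (z : V) : Fin (X.Δ + 1) → ℕ := X.e ((X.blk z).getD z)

/-- inner colour -/
noncomputable def iv (z : V) (c : ℕ) : Fin (X.Δ + 1) :=
  if h : ∃ b, eb X z b = c then h.choose else 0

theorem iv_eb {z : V} {b : Fin (X.Δ + 1)} {c : ℕ} (h : eb X z b = c) : iv X z c = b := by
  have hex : ∃ b, eb X z b = c := ⟨b, h⟩
  unfold iv
  rw [dif_pos hex]
  apply X.einj ((X.blk z).getD z)
  exact hex.choose_spec.trans h.symm

theorem mem_bs' {z j : V} : z ∈ bs X.blk j ↔ X.blk z = some j := by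
  unfold bs; simp

theorem getD_eq {z j : V} (h : X.blk z ≠ none) : (X.blk z).getD z = j ↔ X.blk z = some j := by
  cases hz : X.blk z with
  | none => exact absurd hz h
  | some i => simp

/-- conflicts -/
def EvA (B : Finset (Atm X)) : Prop :=
  ∃ z z' b b', X.blk z ≠ none ∧ X.blk z' ≠ none ∧ X.blk z ≠ X.blk z' ∧ X.G.Adj z z' ∧
    eb X z b = eb X z' b' ∧ B = {at' X z b, at' X z' b'}

/-- forbidden colours -/
def EvF (F : V → Finset ℕ) (B : Finset (Atm X)) : Prop :=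
  ∃ z b, X.blk z ≠ none ∧ eb X z b ∈ F z ∧ B = {at' X z b}

/-- the reject event -/
noncomputable def BR (t : V → V → ℕ) (v : V) (Y : Finset V) : Finset (Atm X) :=
  Y.image fun x => at' X x (iv X x (t v x))

/-- rejects -/
def EvR (t : V → V → ℕ) (B : Finset (Atm X)) : Prop :=
  ∃ v Y, Y ⊆ dn X.G X.blk v ∧ Y.card = 21 ∧ (∀ x ∈ Y, ∃ b, eb X x b = t v x) ∧ B = BR X t v Y

/-- all events -/
def Ev (t : V → V → ℕ) (F : V → Finset ℕ) (B : Finset (Atm X)) : Prop :=
  EvA X B ∨ EvF X F B ∨ EvR X t B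

/-- the weight -/
noncomputable def wt (B : Finset (Atm X)) : ℝ :=
  pr (fun ω : Cfg V (X.Δ + 1) => Holds ω B) * Real.exp (2 * ∑ β ∈ B, X.T β.1 β.2.1)

theorem pr_nonneg {Ω : Type u} [Fintype Ω] (E : Ω → Prop) : 0 ≤ pr E := by
  unfold pr; positivity

theorem wt_nonneg (B : Finset (Atm X)) : 0 ≤ wt X B :=
  mul_nonneg (pr_nonneg _) (Real.exp_pos _).le

theorem ex_nonneg (j : V) (s : Fin (X.Δ + 1)) : 0 ≤ X.ex j s := by
  unfold DCtx.ex; positivity

theorem ex_le (j : V) (s : Fin (X.Δ + 1)) : X.ex j s ≤ 4 / 10 ^ 6 * X.Δ := by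
  unfold DCtx.ex
  have h1 : ∀ z ∈ (bs X.blk j).filter (fun z => X.idx z = s),
      ((nb X.G z \ bs X.blk j).card : ℝ) ≤ 2 * (1 / 10 ^ 6) * X.Δ := fun z hz =>
    X.dec.ext j z (Finset.mem_filter.1 hz).1
  have h2 := Finset.sum_le_card_nsmul _ _ _ h1
  have h3 : (((bs X.blk j).filter (fun z => X.idx z = s)).card : ℝ) ≤ 2 := by
    exact_mod_cast X.cls2 j s
  rw [nsmul_eq_mul] at h2
  have h4 : (0 : ℝ) ≤ 2 * (1 / 10 ^ 6) * X.Δ := by positivity
  have h5 := mul_le_mul_of_nonneg_right h3 h4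
  linarith

theorem T_le (j : V) (s : Fin (X.Δ + 1)) : X.T j s ≤ 13 / 10 ^ 6 := by
  unfold DCtx.T
  have h1 := ex_le X j s
  have hΔ : (0 : ℝ) ≤ X.Δ := Nat.cast_nonneg _
  have h2 : 3 * X.ex j s / (X.Δ + 1) ≤ 12 / 10 ^ 6 := by
    rw [div_le_iff₀ (by positivity)]
    nlinarith
  norm_num at h2 ⊢
  linarith

theorem T_nonneg (j : V) (s : Fin (X.Δ + 1)) : 0 ≤ X.T j s := by
  unfold DCtx.T
  have := ex_nonneg X j s
  positivity

theorem exp_le {m : ℕ} (hm : m ≤ 21) (B : Finset (Atm X)) (hB : B.card ≤ m) :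
    Real.exp (2 * ∑ β ∈ B, X.T β.1 β.2.1) ≤ 1 + 1 / 10 ^ 4 * m := by
  have h1 : ∑ β ∈ B, X.T β.1 β.2.1 ≤ m * (13 / 10 ^ 6) := by
    have := Finset.sum_le_card_nsmul B (fun β => X.T β.1 β.2.1) (13 / 10 ^ 6)
      (fun β _ => T_le X _ _)
    rw [nsmul_eq_mul] at this
    have h2 : (B.card : ℝ) ≤ m := by exact_mod_cast hB
    have h3 := mul_le_mul_of_nonneg_right h2 (by norm_num : (0 : ℝ) ≤ 13 / 10 ^ 6)
    linarith
  set x : ℝ := m * (26 / 10 ^ 6) with hx
  have hm' : (m : ℝ) ≤ 21 := by exact_mod_cast hm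
  have hm0 : (0 : ℝ) ≤ m := Nat.cast_nonneg _
  have hx0 : 0 ≤ x := by positivity
  have hx1 : x ≤ 1 / 2 := by
    rw [hx]; norm_num; linarith
  have h2 : Real.exp (2 * ∑ β ∈ B, X.T β.1 β.2.1) ≤ Real.exp x := by
    apply Real.exp_le_exp.2
    rw [hx]; linarith
  have h3 : Real.exp x ≤ 1 + 2 * x := by
    have e1 := Real.one_sub_le_exp_neg x
    rw [Real.exp_neg] at e1
    have e2 : (0 : ℝ) < 1 - x := by linarith
    have e3 : Real.exp x ≤ (1 - x)⁻¹ := by
      rw [← inv_inv (Real.exp x)]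
      exact inv_anti₀ e2 e1
    have e4 : (1 - x)⁻¹ ≤ 1 + 2 * x := by
      rw [inv_le_iff_one_le_mul₀ e2]
      nlinarith
    linarith
  refine (h2.trans h3).trans ?_
  rw [hx]; norm_num
  linarith

/-- weights of conflicts -/
theorem wtA (hPRD : Stmt_PRD.{u}) {B : Finset (Atm X)} (hB : EvA X B) :
    wt X B ≤ 1 / ((X.Δ : ℝ) + 1) ^ 2 * (1 + 2 / 10 ^ 4) := by
  obtain ⟨z, z', b, b', h1, h2, h3, h4, h5, rfl⟩ := hB
  unfold wt
  have hne : (at' X z b).1 ≠ (at' X z' b').1 := by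
    intro h
    apply h3
    have e1 : (X.blk z).getD z = (X.blk z').getD z' := h
    rw [(getD_eq X h1).1 rfl, (getD_eq X h2).1 rfl, e1]
  have hp := hPRD V (X.Δ + 1) (at' X z b) (at' X z' b') hne
  have he := exp_le X (m := 2) (by norm_num) {at' X z b, at' X z' b'} Finset.card_le_two
  push_cast at hp he
  refine mul_le_mul hp ?_ (Real.exp_pos _).le (by positivity)
  refine he.trans ?_
  norm_num

/-- weights of forbidden colours -/
theorem wtF (hPRC : Stmt_PRC.{u}) (F : V → Finset ℕ) {B : Finset (Atm X)} (hB : EvF X F B) :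
    wt X B ≤ 1 / ((X.Δ : ℝ) + 1) * (1 + 2 / 10 ^ 4) := by
  obtain ⟨z, b, h1, h2, rfl⟩ := hB
  unfold wt
  have hp := hPRC V (X.Δ + 1) {at' X z b} (by simp)
  have he := exp_le X (m := 2) (by norm_num) {at' X z b} (by simp)
  simp only [Finset.card_singleton] at hp
  push_cast at hp he
  rw [pow_one] at hp
  have e : (X.Δ : ℝ) + 1 - 1 + 1 = X.Δ + 1 := by ring
  rw [e] at hp
  refine mul_le_mul hp ?_ (Real.exp_pos _).le (by positivity)
  refine he.trans ?_
  norm_num

theorem card_BR (t : V → V → ℕ) (hinj : ∀ v, Set.InjOn (t v) (nb X.G v : Set V)) {v : V}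
    {Y : Finset V} (hY : Y ⊆ dn X.G X.blk v) (hb : ∀ x ∈ Y, ∃ b, eb X x b = t v x) :
    (BR X t v Y).card = Y.card := by
  unfold BR
  apply Finset.card_image_of_injOn
  intro x hx y hy hxy
  have hx' := hY hx
  have hy' := hY hy
  unfold dn at hx' hy'
  rw [Finset.mem_filter] at hx' hy'
  obtain ⟨b, hb1⟩ := hb x hx
  obtain ⟨c, hc1⟩ := hb y hy
  simp only [iv_eb X hb1, iv_eb X hc1] at hxy
  unfold at' at hxy
  simp only [Prod.mk.injEq] at hxy
  apply hinj v hx'.1 hy'.1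
  rw [← hb1, ← hc1, hxy.2.2]
  unfold eb
  rw [hxy.1]

/-- weights of rejects -/
theorem wtR (hPRC : Stmt_PRC.{u}) (t : V → V → ℕ)
    (hinj : ∀ v, Set.InjOn (t v) (nb X.G v : Set V)) (hΔ : 21 ≤ X.Δ) {B : Finset (Atm X)}
    (hB : EvR X t B) :
    wt X B ≤ (1 / ((X.Δ : ℝ) - 19)) ^ 21 * (1 + 21 / 10 ^ 4) := by
  obtain ⟨v, Y, h1, h2, h3, rfl⟩ := hB
  have hc : (BR X t v Y).card = 21 := (card_BR X t hinj h1 h3).trans h2
  unfold wt
  have hp := hPRC V (X.Δ + 1) (BR X t v Y) (by omega)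
  have he := exp_le X (m := 21) le_rfl (BR X t v Y) hc.le
  rw [hc] at hp
  push_cast at hp he
  have e : (X.Δ : ℝ) + 1 - 21 + 1 = X.Δ - 19 := by ring
  rw [e] at hp
  have hΔ' : (21 : ℝ) ≤ X.Δ := by exact_mod_cast hΔ
  have hpos : (0 : ℝ) < X.Δ - 19 := by linarith
  refine mul_le_mul hp ?_ (Real.exp_pos _).le (by positivity)
  refine he.trans ?_
  norm_num

/-! ### counting -/

theorem cntA (j : V) (s a : Fin (X.Δ + 1)) :
    ((univ.filter (fun B : Finset (Atm X) => EvA X B ∧ Touch B j s a)).card : ℝ) ≤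
      X.ex j s * (X.Δ + 1) + 3 / 10 ^ 13 * (X.Δ : ℝ) ^ 2 := by
  set f : V → V → Fin (X.Δ + 1) → Finset (Atm X) := fun z z' b =>
    {at' X z b, at' X z' (iv X z' (eb X z b))} with hf
  have hsub : univ.filter (fun B : Finset (Atm X) => EvA X B ∧ Touch B j s a) ⊆
      (((bs X.blk j).filter (fun z => X.idx z = s)).biUnion fun z =>
        (nb X.G z \ bs X.blk j).biUnion fun z' => univ.image fun b => f z z' b) ∪
      ((bs X.blk j).biUnion fun z => (nb X.G z \ bs X.blk j).image fun z' => f z z' a) := by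
    have key : ∀ z z' b b', X.blk z ≠ none → X.blk z' ≠ none → X.blk z ≠ X.blk z' →
        X.G.Adj z z' → eb X z b = eb X z' b' → (at' X z b).1 = j →
        ((at' X z b).2.1 = s ∨ (at' X z b).2.2 = a) →
        ({at' X z b, at' X z' b'} : Finset (Atm X)) ∈
        (((bs X.blk j).filter (fun z => X.idx z = s)).biUnion fun z =>
          (nb X.G z \ bs X.blk j).biUnion fun z' => univ.image fun b => f z z' b) ∪
        ((bs X.blk j).biUnion fun z => (nb X.G z \ bs X.blk j).image fun z' => f z z' a) := by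
      intro z z' b b' h1 h2 h3 h4 h5 h6 h7
      have hz : z ∈ bs X.blk j := (mem_bs' X).2 ((getD_eq X h1).1 h6)
      have hz' : z' ∈ nb X.G z \ bs X.blk j := by
        rw [Finset.mem_sdiff]
        refine ⟨by unfold nb; simp [h4], fun h => h3 ?_⟩
        rw [(mem_bs' X).1 hz, (mem_bs' X).1 h]
      have hfe : ({at' X z b, at' X z' b'} : Finset (Atm X)) = f z z' b := by
        rw [hf]
        simp only
        rw [iv_eb X h5.symm]
      rw [Finset.mem_union]
      rcases h7 with h7 | h7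
      · left
        rw [Finset.mem_biUnion]
        refine ⟨z, Finset.mem_filter.2 ⟨hz, h7⟩, ?_⟩
        rw [Finset.mem_biUnion]
        exact ⟨z', hz', Finset.mem_image.2 ⟨b, Finset.mem_univ _, hfe.symm⟩⟩
      · right
        have hb : b = a := h7
        subst hb
        rw [Finset.mem_biUnion]
        exact ⟨z, hz, Finset.mem_image.2 ⟨z', hz', hfe.symm⟩⟩
    intro B hB
    rw [Finset.mem_filter] at hB
    obtain ⟨-, ⟨z, z', b, b', h1, h2, h3, h4, h5, rfl⟩, β, hβ, h6, h7⟩ := hB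
    rw [Finset.mem_insert, Finset.mem_singleton] at hβ
    rcases hβ with hβ | hβ
    · subst hβ
      exact key z z' b b' h1 h2 h3 h4 h5 h6 h7
    · subst hβ
      rw [Finset.pair_comm]
      exact key z' z b' b h2 h1 (Ne.symm h3) h4.symm h5.symm h6 h7
  have hc := Finset.card_le_card hsub
  have hc1 := (hc.trans (Finset.card_union_le _ _))
  have c1 : (((bs X.blk j).filter (fun z => X.idx z = s)).biUnion fun z =>
        (nb X.G z \ bs X.blk j).biUnion fun z' => univ.image fun b => f z z' b).card ≤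
      ∑ z ∈ (bs X.blk j).filter (fun z => X.idx z = s), (nb X.G z \ bs X.blk j).card * (X.Δ + 1) := by
    refine Finset.card_biUnion_le.trans (Finset.sum_le_sum fun z _ => ?_)
    refine Finset.card_biUnion_le.trans ?_
    refine (Finset.sum_le_card_nsmul _ _ (X.Δ + 1) fun z' _ => ?_).trans (by rw [smul_eq_mul])
    refine Finset.card_image_le.trans ?_
    simp
  have c2 : ((bs X.blk j).biUnion fun z => (nb X.G z \ bs X.blk j).image fun z' => f z z' a).card ≤
      ∑ z ∈ bs X.blk j, (nb X.G z \ bs X.blk j).card :=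
    Finset.card_biUnion_le.trans (Finset.sum_le_sum fun z _ => Finset.card_image_le)
  have hc2 : ((univ.filter (fun B : Finset (Atm X) => EvA X B ∧ Touch B j s a)).card : ℝ) ≤
      ((∑ z ∈ (bs X.blk j).filter (fun z => X.idx z = s),
        (nb X.G z \ bs X.blk j).card * (X.Δ + 1) : ℕ) : ℝ) +
      ((∑ z ∈ bs X.blk j, (nb X.G z \ bs X.blk j).card : ℕ) : ℝ) := by
    exact_mod_cast hc1.trans (Nat.add_le_add c1 c2)
  push_cast at hc2
  rw [← Finset.sum_mul] at hc2
  have h3 := X.dec.edges j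
  unfold DCtx.ex
  have h4 : 3 * (1 / 10 ^ 13 : ℝ) * (X.Δ : ℝ) ^ 2 = 3 / 10 ^ 13 * (X.Δ : ℝ) ^ 2 := by ring
  linarith

theorem cntF (F : V → Finset ℕ) (k : ℕ) (hk : ∀ v, (F v).card ≤ k)
    (hF : ∀ j a, (((bs X.blk j).filter (fun z => X.e j a ∈ F z)).card : ℝ) ≤ X.Δ / 10 ^ 13)
    (j : V) (s a : Fin (X.Δ + 1)) :
    ((univ.filter (fun B : Finset (Atm X) => EvF X F B ∧ Touch B j s a)).card : ℝ) ≤
      2 * k + X.Δ / 10 ^ 13 := by
  have hsub : univ.filter (fun B : Finset (Atm X) => EvF X F B ∧ Touch B j s a) ⊆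
      (((bs X.blk j).filter (fun z => X.idx z = s)).biUnion fun z =>
        (univ.filter (fun b => eb X z b ∈ F z)).image fun b => ({at' X z b} : Finset (Atm X))) ∪
      (((bs X.blk j).filter (fun z => X.e j a ∈ F z)).image fun z => ({at' X z a} : Finset (Atm X))) := by
    intro B hB
    rw [Finset.mem_filter] at hB
    obtain ⟨-, ⟨z, b, h1, h2, rfl⟩, β, hβ, h6, h7⟩ := hB
    rw [Finset.mem_singleton] at hβ
    subst hβ
    have hz : z ∈ bs X.blk j := (mem_bs' X).2 ((getD_eq X h1).1 h6)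
    rw [Finset.mem_union]
    rcases h7 with h7 | h7
    · left
      rw [Finset.mem_biUnion]
      refine ⟨z, Finset.mem_filter.2 ⟨hz, h7⟩, Finset.mem_image.2 ⟨b, ?_, rfl⟩⟩
      simp [h2]
    · right
      have hb : b = a := h7
      subst hb
      refine Finset.mem_image.2 ⟨z, Finset.mem_filter.2 ⟨hz, ?_⟩, rfl⟩
      have e1 : (X.blk z).getD z = j := h6
      unfold eb at h2
      rw [e1] at h2
      exact h2
  have hc := Finset.card_le_card hsub
  have hc1 := (hc.trans (Finset.card_union_le _ _))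
  have c1 : (((bs X.blk j).filter (fun z => X.idx z = s)).biUnion fun z =>
        (univ.filter (fun b => eb X z b ∈ F z)).image fun b => ({at' X z b} : Finset (Atm X))).card ≤
      2 * k := by
    refine Finset.card_biUnion_le.trans ?_
    refine (Finset.sum_le_card_nsmul _ _ k fun z _ => ?_).trans ?_
    · refine Finset.card_image_le.trans ?_
      refine le_trans ?_ (hk z)
      refine Finset.card_le_card_of_injOn (eb X z) (fun b hb => ?_) (fun b _ b' _ h => ?_)
      · exact (Finset.mem_filter.1 hb).2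
      · exact X.einj _ h
    · rw [smul_eq_mul]
      exact Nat.mul_le_mul_right _ (X.cls2 j s)
  have c2 := Finset.card_image_le (s := (bs X.blk j).filter (fun z => X.e j a ∈ F z))
    (f := fun z => ({at' X z a} : Finset (Atm X)))
  have hc2 : ((univ.filter (fun B : Finset (Atm X) => EvF X F B ∧ Touch B j s a)).card : ℝ) ≤
      ((2 * k : ℕ) : ℝ) + (((bs X.blk j).filter (fun z => X.e j a ∈ F z)).card : ℝ) := by
    exact_mod_cast hc1.trans (Nat.add_le_add c1 c2)
  push_cast at hc2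
  have := hF j a
  linarith

theorem cntR (t : V → V → ℕ) (hsym : ∀ v w, t v w = t w v)
    (hinj : ∀ v, Set.InjOn (t v) (nb X.G v : Set V)) (j : V) (s a : Fin (X.Δ + 1)) :
    ((univ.filter (fun B : Finset (Atm X) => EvR X t B ∧ Touch B j s a)).card : ℝ) ≤
      (31 / 10) * X.Δ * (X.Δ.choose 20) := by
  have hsub : univ.filter (fun B : Finset (Atm X) => EvR X t B ∧ Touch B j s a) ⊆
      (((bs X.blk j).filter (fun z => X.idx z = s)).biUnion fun x =>
        (nb X.G x).biUnion fun v => (powersetCard 20 (nb X.G v)).image fun Y =>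
          BR X t v (insert x Y)) ∪
      ((bs X.blk j).biUnion fun x =>
        ((nb X.G x).filter (fun v => t v x = X.e j a)).biUnion fun v =>
          (powersetCard 20 (nb X.G v)).image fun Y => BR X t v (insert x Y)) := by
    intro B hB
    rw [Finset.mem_filter] at hB
    obtain ⟨-, ⟨v, Y, h1, h2, h3, rfl⟩, β, hβ, h6, h7⟩ := hB
    unfold BR at hβ
    rw [Finset.mem_image] at hβ
    obtain ⟨x, hx, rfl⟩ := hβ
    have hxd := h1 hx
    unfold dn at hxd
    rw [Finset.mem_filter] at hxd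
    have hadj : X.G.Adj v x := by
      have := hxd.1
      unfold nb at this
      simpa using this
    have hv : v ∈ nb X.G x := by unfold nb; simp [hadj.symm]
    have hz : x ∈ bs X.blk j := (mem_bs' X).2 ((getD_eq X hxd.2).1 h6)
    have hY : Y.erase x ∈ powersetCard 20 (nb X.G v) := by
      rw [Finset.mem_powersetCard]
      refine ⟨fun y hy => ?_, by rw [Finset.card_erase_of_mem hx, h2]⟩
      have := h1 (Finset.mem_of_mem_erase hy)
      unfold dn at this
      exact (Finset.mem_filter.1 this).1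
    have hBe : BR X t v (insert x (Y.erase x)) = BR X t v Y := by rw [Finset.insert_erase hx]
    rw [Finset.mem_union]
    rcases h7 with h7 | h7
    · left
      rw [Finset.mem_biUnion]
      refine ⟨x, Finset.mem_filter.2 ⟨hz, h7⟩, ?_⟩
      rw [Finset.mem_biUnion]
      exact ⟨v, hv, Finset.mem_image.2 ⟨_, hY, hBe⟩⟩
    · right
      rw [Finset.mem_biUnion]
      refine ⟨x, hz, ?_⟩
      rw [Finset.mem_biUnion]
      refine ⟨v, Finset.mem_filter.2 ⟨hv, ?_⟩, Finset.mem_image.2 ⟨_, hY, hBe⟩⟩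
      obtain ⟨b, hb⟩ := h3 x hx
      have hb' : iv X x (t v x) = a := h7
      rw [iv_eb X hb] at hb'
      rw [← hb, hb']
      have e1 : (X.blk x).getD x = j := h6
      unfold eb
      rw [e1]
  have hc := Finset.card_le_card hsub
  have hc1 := (hc.trans (Finset.card_union_le _ _))
  have hcard : ∀ x v, ((powersetCard 20 (nb X.G v)).image fun Y => BR X t v (insert x Y)).card ≤
      X.Δ.choose 20 := by
    intro x v
    refine Finset.card_image_le.trans ?_
    rw [Finset.card_powersetCard]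
    exact Nat.choose_le_choose 20 (X.deg v)
  have c1 : (((bs X.blk j).filter (fun z => X.idx z = s)).biUnion fun x =>
        (nb X.G x).biUnion fun v => (powersetCard 20 (nb X.G v)).image fun Y =>
          BR X t v (insert x Y)).card ≤ 2 * (X.Δ * X.Δ.choose 20) := by
    refine Finset.card_biUnion_le.trans ?_
    refine (Finset.sum_le_card_nsmul _ _ (X.Δ * X.Δ.choose 20) fun x _ => ?_).trans ?_
    · refine Finset.card_biUnion_le.trans ?_
      refine (Finset.sum_le_card_nsmul _ _ _ fun v _ => hcard x v).trans ?_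
      rw [smul_eq_mul]
      exact Nat.mul_le_mul_right _ (X.deg x)
    · rw [smul_eq_mul]
      exact Nat.mul_le_mul_right _ (X.cls2 j s)
  have c2 : ((bs X.blk j).biUnion fun x =>
        ((nb X.G x).filter (fun v => t v x = X.e j a)).biUnion fun v =>
          (powersetCard 20 (nb X.G v)).image fun Y => BR X t v (insert x Y)).card ≤
      (bs X.blk j).card * X.Δ.choose 20 := by
    refine Finset.card_biUnion_le.trans ?_
    refine (Finset.sum_le_card_nsmul _ _ (X.Δ.choose 20) fun x _ => ?_).trans (by rw [smul_eq_mul])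
    refine Finset.card_biUnion_le.trans ?_
    refine (Finset.sum_le_card_nsmul _ _ _ fun v _ => hcard x v).trans ?_
    rw [smul_eq_mul]
    have : ((nb X.G x).filter (fun v => t v x = X.e j a)).card ≤ 1 := by
      rw [Finset.card_le_one]
      intro v hv w hw
      rw [Finset.mem_filter] at hv hw
      apply hinj x hv.1 hw.1
      rw [hsym x v, hsym x w, hv.2, hw.2]
    calc _ ≤ 1 * X.Δ.choose 20 := Nat.mul_le_mul_right _ this
      _ = _ := one_mul _
  have hc2 : ((univ.filter (fun B : Finset (Atm X) => EvR X t B ∧ Touch B j s a)).card : ℝ) ≤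
      ((2 * (X.Δ * X.Δ.choose 20) : ℕ) : ℝ) + (((bs X.blk j).card * X.Δ.choose 20 : ℕ) : ℝ) := by
    exact_mod_cast hc1.trans (Nat.add_le_add c1 c2)
  push_cast at hc2
  have h5 := X.dec.size j
  have h6 : (0 : ℝ) ≤ (X.Δ.choose 20 : ℝ) := Nat.cast_nonneg _
  have h7 := mul_le_mul_of_nonneg_right h5 h6
  have h8 : (0 : ℝ) ≤ (X.Δ : ℝ) * (X.Δ.choose 20 : ℝ) := by positivity
  nlinarith

theorem numR (D : ℕ) (hD : 10 ^ 4 ≤ D) :
    (31 / 10) * (D : ℝ) * (D.choose 20) * ((1 / ((D : ℝ) - 19)) ^ 21 * (1 + 21 / 10 ^ 4)) ≤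
      1 / 10 ^ 17 := by
  have hD' : (10 ^ 4 : ℝ) ≤ D := by exact_mod_cast hD
  have hpos : (0 : ℝ) < D - 19 := by linarith
  have hD0 : (0 : ℝ) ≤ D := by linarith
  have h1 : (D.choose 20 : ℝ) ≤ (D : ℝ) ^ 20 / (Nat.factorial 20 : ℕ) := Nat.choose_le_pow_div 20 D
  have h2 : (D : ℝ) * (1 / ((D : ℝ) - 19)) ≤ 1002 / 1000 := by
    rw [mul_one_div, div_le_iff₀ hpos]; linarith
  have h3 : ((D : ℝ) * (1 / ((D : ℝ) - 19))) ^ 21 ≤ 2 :=
    (pow_le_pow_left₀ (by positivity) h2 21).trans (by norm_num)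
  have h4 : (31 / 10) * (D : ℝ) * (D.choose 20) * ((1 / ((D : ℝ) - 19)) ^ 21 * (1 + 21 / 10 ^ 4)) ≤
      (31 / 10) * (D : ℝ) * ((D : ℝ) ^ 20 / (Nat.factorial 20 : ℕ)) *
        ((1 / ((D : ℝ) - 19)) ^ 21 * (1 + 21 / 10 ^ 4)) := by
    apply mul_le_mul_of_nonneg_right _ (by positivity)
    exact mul_le_mul_of_nonneg_left h1 (by positivity)
  refine h4.trans ?_
  have h5 : (31 / 10) * (D : ℝ) * ((D : ℝ) ^ 20 / (Nat.factorial 20 : ℕ)) *
        ((1 / ((D : ℝ) - 19)) ^ 21 * (1 + 21 / 10 ^ 4)) =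
      ((D : ℝ) * (1 / ((D : ℝ) - 19))) ^ 21 *
        ((31 / 10) / (Nat.factorial 20 : ℕ) * (1 + 21 / 10 ^ 4)) := by
    rw [mul_pow]; ring
  rw [h5]
  have h6 : (0 : ℝ) ≤ (31 / 10) / (Nat.factorial 20 : ℕ) * (1 + 21 / 10 ^ 4) := by positivity
  refine (mul_le_mul_of_nonneg_right h3 h6).trans ?_
  norm_num [Nat.factorial]

theorem total (hPRC : Stmt_PRC.{u}) (hPRD : Stmt_PRD.{u}) (t : V → V → ℕ) (F : V → Finset ℕ)
    (k : ℕ) (hΔ : k * 10 ^ 13 + 10 ^ 4 ≤ X.Δ) (hsym : ∀ v w, t v w = t w v)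
    (hinj : ∀ v, Set.InjOn (t v) (nb X.G v : Set V)) (hk : ∀ v, (F v).card ≤ k)
    (hF : ∀ j a, (((bs X.blk j).filter (fun z => X.e j a ∈ F z)).card : ℝ) ≤ X.Δ / 10 ^ 13)
    (j : V) (s a : Fin (X.Δ + 1)) :
    ∑ B ∈ univ.filter (fun B : Finset (Atm X) => Ev X t F B ∧ Touch B j s a), wt X B ≤
      X.T j s - 1 / 10 ^ 13 := by
  have hA : ∑ B ∈ univ.filter (fun B : Finset (Atm X) => EvA X B ∧ Touch B j s a), wt X B ≤
      (X.ex j s * (X.Δ + 1) + 3 / 10 ^ 13 * (X.Δ : ℝ) ^ 2) *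
        (1 / ((X.Δ : ℝ) + 1) ^ 2 * (1 + 2 / 10 ^ 4)) := by
    refine (Finset.sum_le_card_nsmul _ _ _ fun B hB => wtA X hPRD (Finset.mem_filter.1 hB).2.1).trans ?_
    rw [nsmul_eq_mul]
    exact mul_le_mul_of_nonneg_right (cntA X j s a) (by positivity)
  have hFs : ∑ B ∈ univ.filter (fun B : Finset (Atm X) => EvF X F B ∧ Touch B j s a), wt X B ≤
      (2 * k + X.Δ / 10 ^ 13) * (1 / ((X.Δ : ℝ) + 1) * (1 + 2 / 10 ^ 4)) := by
    refine (Finset.sum_le_card_nsmul _ _ _ fun B hB => wtF X hPRC F (Finset.mem_filter.1 hB).2.1).trans ?_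
    rw [nsmul_eq_mul]
    exact mul_le_mul_of_nonneg_right (cntF X F k hk hF j s a) (by positivity)
  have hD4 : 10 ^ 4 ≤ X.Δ := (Nat.le_add_left _ _).trans hΔ
  have h21 : 21 ≤ X.Δ := le_trans (by norm_num) hD4
  have hD' : (10 ^ 4 : ℝ) ≤ X.Δ := by exact_mod_cast hD4
  have hpos : (0 : ℝ) < X.Δ - 19 := by linarith
  have hR : ∑ B ∈ univ.filter (fun B : Finset (Atm X) => EvR X t B ∧ Touch B j s a), wt X B ≤
      1 / 10 ^ 17 := by
    refine (Finset.sum_le_card_nsmul _ _ _ fun B hB =>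
      wtR X hPRC t hinj h21 (Finset.mem_filter.1 hB).2.1).trans ?_
    rw [nsmul_eq_mul]
    refine (mul_le_mul_of_nonneg_right (cntR X t hsym hinj j s a) (by positivity)).trans ?_
    exact numR X.Δ hD4
  have hsub : univ.filter (fun B : Finset (Atm X) => Ev X t F B ∧ Touch B j s a) ⊆
      univ.filter (fun B : Finset (Atm X) => EvA X B ∧ Touch B j s a) ∪
      (univ.filter (fun B : Finset (Atm X) => EvF X F B ∧ Touch B j s a) ∪
      univ.filter (fun B : Finset (Atm X) => EvR X t B ∧ Touch B j s a)) := by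
    intro B hB
    simp only [Finset.mem_union, Finset.mem_filter, Finset.mem_univ, true_and, Ev] at hB ⊢
    tauto
  have h1 := Finset.sum_le_sum_of_subset_of_nonneg hsub (f := fun B => wt X B)
    (fun B _ _ => wt_nonneg X B)
  have hun : ∀ S S' : Finset (Finset (Atm X)), ∑ B ∈ S ∪ S', wt X B ≤
      ∑ B ∈ S, wt X B + ∑ B ∈ S', wt X B := by
    intro S S'
    rw [← Finset.sum_union_inter]
    have : 0 ≤ ∑ B ∈ S ∩ S', wt X B := Finset.sum_nonneg fun B _ => wt_nonneg X B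
    linarith
  have h2 := hun (univ.filter (fun B : Finset (Atm X) => EvA X B ∧ Touch B j s a))
    (univ.filter (fun B : Finset (Atm X) => EvF X F B ∧ Touch B j s a) ∪
      univ.filter (fun B : Finset (Atm X) => EvR X t B ∧ Touch B j s a))
  have h3 := hun (univ.filter (fun B : Finset (Atm X) => EvF X F B ∧ Touch B j s a))
      (univ.filter (fun B : Finset (Atm X) => EvR X t B ∧ Touch B j s a))
  have hex := ex_nonneg X j s
  have hn : (0 : ℝ) < X.Δ + 1 := by positivity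
  -- numerical estimates
  have e1 : (X.ex j s * (X.Δ + 1) + 3 / 10 ^ 13 * (X.Δ : ℝ) ^ 2) *
        (1 / ((X.Δ : ℝ) + 1) ^ 2 * (1 + 2 / 10 ^ 4)) ≤
      (1 + 2 / 10 ^ 4) * (X.ex j s / (X.Δ + 1)) + (1 + 2 / 10 ^ 4) * (3 / 10 ^ 13) := by
    have f1 : (X.ex j s * (X.Δ + 1) + 3 / 10 ^ 13 * (X.Δ : ℝ) ^ 2) *
        (1 / ((X.Δ : ℝ) + 1) ^ 2 * (1 + 2 / 10 ^ 4)) =
        (1 + 2 / 10 ^ 4) * (X.ex j s / (X.Δ + 1)) +
        (1 + 2 / 10 ^ 4) * (3 / 10 ^ 13) * ((X.Δ : ℝ) ^ 2 / ((X.Δ : ℝ) + 1) ^ 2) := by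
      field_simp
    rw [f1]
    have f2 : (X.Δ : ℝ) ^ 2 / ((X.Δ : ℝ) + 1) ^ 2 ≤ 1 := by
      rw [div_le_one (by positivity)]
      exact pow_le_pow_left₀ (by positivity) (by linarith) 2
    have f3 : (0 : ℝ) ≤ (1 + 2 / 10 ^ 4) * (3 / 10 ^ 13) := by positivity
    nlinarith [mul_le_mul_of_nonneg_left f2 f3]
  have hk' : (k : ℝ) ≤ X.Δ / 10 ^ 13 := by
    rw [le_div_iff₀ (by positivity)]
    have h8 : k * 10 ^ 13 ≤ X.Δ := (Nat.le_add_right _ _).trans hΔ
    have h9 : ((k * 10 ^ 13 : ℕ) : ℝ) ≤ (X.Δ : ℝ) := Nat.cast_le.2 h8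
    rw [Nat.cast_mul, Nat.cast_pow] at h9
    exact h9
  have e2 : (2 * k + X.Δ / 10 ^ 13) * (1 / ((X.Δ : ℝ) + 1) * (1 + 2 / 10 ^ 4)) ≤
      (1 + 2 / 10 ^ 4) * (3 / 10 ^ 13) := by
    have f1 : (2 * k + X.Δ / 10 ^ 13 : ℝ) ≤ 3 / 10 ^ 13 * (X.Δ + 1) := by
      have : (2 * k : ℝ) ≤ 2 * (X.Δ / 10 ^ 13) := by linarith
      have f2 : 3 / 10 ^ 13 * ((X.Δ : ℝ) + 1) = 3 * (X.Δ / 10 ^ 13) + 3 / 10 ^ 13 := by ring
      rw [f2]
      have f3 : (0 : ℝ) < 3 / 10 ^ 13 := by positivity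
      linarith
    refine (mul_le_mul_of_nonneg_right f1 (by positivity)).trans (le_of_eq ?_)
    field_simp
  have e3 : 0 ≤ X.ex j s / (X.Δ + 1) := by positivity
  unfold DCtx.T
  have e4 : 3 * X.ex j s / ((X.Δ : ℝ) + 1) = 3 * (X.ex j s / (X.Δ + 1)) := by ring
  rw [e4]
  norm_num at *
  linarith

end DSM

open DSM in
theorem stmt_DSM (hPRC : Stmt_PRC.{u}) (hPRD : Stmt_PRD.{u}) : Stmt_DSM.{u} := by
  intro k
  refine ⟨k * 10 ^ 13 + 10 ^ 4, ?_⟩
  intro V _ X t F hΔ hsym hinj hk hF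
  refine ⟨{B : Finset (Atm X) // Ev X t F B}, inferInstance, fun B => B.1, ?_, ?_, ?_⟩
  · rintro ⟨B, hB⟩
    rcases hB with ⟨z, z', b, b', -, -, -, -, -, rfl⟩ | ⟨z, b, -, -, rfl⟩ | ⟨v, Y, -, hY, -, rfl⟩
    · exact ⟨_, Finset.mem_insert_self _ _⟩
    · exact ⟨_, Finset.mem_singleton_self _⟩
    · have : Y.Nonempty := by
        rw [← Finset.card_pos]; omega
      exact this.image _
  · intro j s a
    have h := total X hPRC hPRD t F k hΔ hsym hinj hk hF j s a
    refine le_trans (le_of_eq ?_) h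
    change ∑ i ∈ univ.filter (fun i : {B : Finset (Atm X) // Ev X t F B} => Touch i.1 j s a),
      wt X i.1 = _
    refine Finset.sum_bij (fun i _ => i.1) ?_ ?_ ?_ ?_
    · intro i hi
      rw [Finset.mem_filter] at hi ⊢
      exact ⟨Finset.mem_univ _, i.2, hi.2⟩
    · intro i _ i' _ h
      exact Subtype.ext h
    · intro B hB
      rw [Finset.mem_filter] at hB
      exact ⟨⟨B, hB.2.1⟩, by rw [Finset.mem_filter]; exact ⟨Finset.mem_univ _, hB.2.2⟩, rfl⟩
    · intro i _; rfl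
  · intro ω hω
    have hvc : ∀ z, X.vc ω z = eb X z (ω ((X.blk z).getD z) (X.idx z)) := fun z => rfl
    have hat : ∀ z, Holds ω {at' X z (ω ((X.blk z).getD z) (X.idx z))} := by
      intro z β hβ
      rw [Finset.mem_singleton] at hβ
      subst hβ
      rfl
    refine ⟨?_, ?_, ?_⟩
    · intro z z' h1 h2 hadj heq
      by_cases hb : X.blk z = X.blk z'
      · obtain ⟨j, hj⟩ := Option.ne_none_iff_exists'.1 h1
        have hz : z ∈ bs X.blk j := (mem_bs' X).2 hj
        have hz' : z' ∈ bs X.blk j := (mem_bs' X).2 (hb ▸ hj)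
        have hne : z ≠ z' := hadj.ne
        have hidx : X.idx z ≠ X.idx z' := fun h => X.clsind j z hz z' hz' hne h hadj
        rw [hvc, hvc] at heq
        have hj' : X.blk z' = some j := hb ▸ hj
        unfold eb at heq
        rw [hj, hj'] at heq
        simp only [Option.getD_some] at heq
        exact hidx ((ω j).injective (X.einj j heq))
      · refine hω ⟨_, Or.inl ⟨z, z', _, _, h1, h2, hb, hadj, heq, rfl⟩⟩ ?_
        intro β hβ
        rw [Finset.mem_insert, Finset.mem_singleton] at hβ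
        rcases hβ with hβ | hβ <;> subst hβ <;> rfl
    · intro z h1 h2
      exact hω ⟨_, Or.inr (Or.inl ⟨z, _, h1, h2, rfl⟩)⟩ (hat z)
    · intro v
      by_contra hcon
      push Not at hcon
      obtain ⟨Y, hY, hc⟩ := Finset.exists_subset_card_eq
        (s := (dn X.G X.blk v).filter (fun x => X.vc ω x = t v x)) (n := 21) (by omega)
      have hb : ∀ x ∈ Y, eb X x (ω ((X.blk x).getD x) (X.idx x)) = t v x := fun x hx =>
        (Finset.mem_filter.1 (hY hx)).2
      refine hω ⟨_, Or.inr (Or.inr ⟨v, Y, fun x hx => (Finset.mem_filter.1 (hY hx)).1, hc,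
        fun x hx => ⟨_, hb x hx⟩, rfl⟩)⟩ ?_
      intro β hβ
      unfold BR at hβ
      rw [Finset.mem_image] at hβ
      obtain ⟨x, hx, rfl⟩ := hβ
      rw [iv_eb X (hb x hx)]
      rfl

end Pool.Agent.Work.MP_db9399_all
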