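import Pool.Agent.Work.MP_db9399_all.Interface

/-!
# Block SP2: the second random round
-/

set_option autoImplicit false

namespace Pool.Agent.Work.MP_db9399_all

open Finset Classical

universe u

namespace SP2

variable {V : Type u} [Fintype V]

theorem mem_nb' {G : SimpleGraph V} {v w : V} : w ∈ nb G v ↔ G.Adj v w := by
  unfold nb; simp

/-- colouring more vertices does not increase colours + uncoloured -/
theorem persist (G : SimpleGraph V) (c c' : V → ℕ) (U U' : Finset V) (hU : U' ⊆ U)
    (hc : ∀ x, x ∉ U → c' x = c x) (x : V) :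
    ((nb G x \ U').image c').card + (nb G x ∩ U').card ≤
      ((nb G x \ U).image c).card + (nb G x ∩ U).card := by
  have h1 : (nb G x \ U').image c' ⊆ (nb G x \ U).image c ∪ (nb G x ∩ (U \ U')).image c' := by
    intro a ha
    rw [mem_image] at ha
    obtain ⟨y, hy, rfl⟩ := ha
    rw [mem_sdiff] at hy
    rw [mem_union]
    by_cases hyU : y ∈ U
    · right
      exact mem_image.2 ⟨y, mem_inter.2 ⟨hy.1, mem_sdiff.2 ⟨hyU, hy.2⟩⟩, rfl⟩
    · left
      exact mem_image.2 ⟨y, mem_sdiff.2 ⟨hy.1, hyU⟩, (hc y hyU).symm⟩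
  have h2 := (card_le_card h1).trans (card_union_le _ _)
  have h3 : ((nb G x ∩ (U \ U')).image c').card ≤ (nb G x ∩ (U \ U')).card := card_image_le
  have h4 : (nb G x ∩ (U \ U')).card + (nb G x ∩ U').card = (nb G x ∩ U).card := by
    rw [← card_union_of_disjoint]
    · congr 1
      ext y
      simp only [mem_union, mem_inter, mem_sdiff]
      constructor
      · rintro (⟨a, b, -⟩ | ⟨a, b⟩)
        · exact ⟨a, b⟩
        · exact ⟨a, hU b⟩
      · rintro ⟨a, b⟩
        by_cases hb : y ∈ U'
        · exact Or.inr ⟨a, hb⟩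
        · exact Or.inl ⟨a, b, hb⟩
    · rw [disjoint_left]
      intro y hy hy'
      exact (mem_sdiff.1 (mem_inter.1 hy).2).2 (mem_inter.1 hy').2
  omega

/-- trivial bound -/
theorem trivial_bound (G : SimpleGraph V) (c' : V → ℕ) (U' : Finset V) (x : V) :
    ((nb G x \ U').image c').card + (nb G x ∩ U').card ≤ (nb G x).card := by
  have h1 : ((nb G x \ U').image c').card ≤ (nb G x \ U').card := card_image_le
  have h2 := card_sdiff_add_card_inter (nb G x) U'
  omega

end SP2

open SP2 in
theorem stmt_SP2 (hS : Stmt_STEP.{u}) : Stmt_SP2.{u} := by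
  intro γ hγ
  have hom : 0 < min (γ / 2) 1 := lt_min (by linarith) one_pos
  obtain ⟨κ, D1, hκ, hstep⟩ := hS (min (γ / 2) 1) γ hom (min_le_right _ _) hγ
  have hκγ : 0 < κ * γ := mul_pos hκ hγ
  refine ⟨min (1 / 10 ^ 26) (min γ (κ * γ)), lt_min (by norm_num) (lt_min hγ hκγ), ?_⟩
  intro k h
  refine ⟨D1 + h + 2, ?_⟩
  intro V _ G Δ N t F blk c U hΔ hN1 hN2 hdeg hF hU hP hA
  have hΔ0 : (0 : ℝ) ≤ Δ := Nat.cast_nonneg _
  set Q3 : V → Prop := fun x => blk x = none ∧ (1 - 1 / 10 ^ 26) * (Δ : ℝ) < ((nb G x).card : ℝ) ∧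
    ¬ Sb G Δ blk x ∧ ((dn G blk x).card : ℝ) < Δ / (4 * 10 ^ 26) ∧
    ((sbn G Δ blk x).card : ℝ) < Δ / (8 * 10 ^ 26) with hQ3
  set Q2 : V → Prop := fun x => blk x = none ∧ ¬ Sb G Δ blk x ∧
    (Δ : ℝ) / (8 * 10 ^ 26) ≤ ((sbn G Δ blk x).card : ℝ) with hQ2
  set Ma : V → Finset V := fun x => (nb G x ∩ U).filter (fun b =>
      γ * Δ ≤ ((av G N F c U b ∩ (nb G x \ U).image c).card : ℝ)) with hMa
  have hMaN : ∀ x, Ma x ⊆ nb G x := fun x y hy =>
    (mem_inter.1 (mem_filter.1 hy).1).1
  have hMiN : ∀ x, sbn G Δ blk x ∩ U ⊆ nb G x := fun x y hy =>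
    (mem_filter.1 (mem_inter.1 hy).1).1
  obtain ⟨c', U', h1, h2, h3, h4, h5, h6⟩ := hstep G Δ N t F c U {x // Q3 x} {x // Q2 x}
    (fun d => Ma d.1) (fun d y => av G N F c U y ∩ (nb G d.1 \ U).image c)
    (fun _ y => nb G y ∩ U) (fun d => sbn G Δ blk d.1 ∩ U) (by omega) (by omega) (by omega) hdeg hP
    (by
      rintro ⟨x, hx⟩
      refine ⟨hA.q3 x hx.1 hx.2.1 hx.2.2.1 hx.2.2.2.1 hx.2.2.2.2,
        (card_le_card (hMaN x)).trans (hdeg x), fun y hy => ?_⟩
      exact (mem_inter.1 (mem_filter.1 hy).1).2)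
    (by
      rintro ⟨x, hx⟩
      exact ⟨hA.q2 x hx.1 hx.2.1 hx.2.2, (card_le_card (hMiN x)).trans (hdeg x),
        fun y hy => (mem_inter.1 hy).2⟩)
    (by
      rintro ⟨x, hx⟩ y hy
      refine ⟨inter_subset_left, ?_⟩
      have e1 : γ * Δ ≤ ((av G N F c U y ∩ (nb G x \ U).image c).card : ℝ) := (mem_filter.1 hy).2
      refine le_trans ?_ e1
      have e2 : (N : ℝ) ≤ 2 * Δ := by
        have : N ≤ 2 * Δ := by omega
        exact_mod_cast this
      have e3 : min (γ / 2) 1 ≤ γ / 2 := min_le_left _ _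
      calc min (γ / 2) 1 * (N : ℝ) ≤ (γ / 2) * (2 * Δ) :=
            mul_le_mul e3 e2 (Nat.cast_nonneg _) (by linarith)
        _ = γ * Δ := by ring)
    (by
      rintro ⟨x, hx⟩ y hy
      refine ⟨Subset.rfl, ?_, ?_⟩
      · have := (card_le_card (inter_subset_left (s₁ := nb G y) (s₂ := U))).trans (hdeg y)
        omega
      · intro h
        exact G.loopless.irrefl y (mem_nb'.1 (mem_inter.1 h).1))
    (by
      intro w
      have c1 : (univ.filter (fun d : {x // Q3 x} => w ∈ Ma d.1 ∨
          ∃ y ∈ Ma d.1, w ∈ nb G y ∩ U)).card ≤ Δ + Δ * Δ := by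
        have hsub : (univ.filter (fun d : {x // Q3 x} => w ∈ Ma d.1 ∨
          ∃ y ∈ Ma d.1, w ∈ nb G y ∩ U)).image Subtype.val ⊆
            nb G w ∪ (nb G w).biUnion (fun y => nb G y) := by
          intro x hx
          rw [mem_image] at hx
          obtain ⟨d, hd, rfl⟩ := hx
          rw [mem_filter] at hd
          rw [mem_union]
          rcases hd.2 with h | ⟨y, hy, hw⟩
          · left
            exact mem_nb'.2 (mem_nb'.1 (hMaN _ h)).symm
          · right
            rw [mem_biUnion]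
            exact ⟨y, mem_nb'.2 (mem_nb'.1 (mem_inter.1 hw).1).symm,
              mem_nb'.2 (mem_nb'.1 (hMaN _ hy)).symm⟩
        rw [← card_image_of_injective _ Subtype.val_injective]
        refine (card_le_card hsub).trans ((card_union_le _ _).trans ?_)
        refine Nat.add_le_add (hdeg w) ?_
        refine card_biUnion_le.trans ?_
        refine (sum_le_card_nsmul _ _ Δ fun y _ => hdeg y).trans ?_
        rw [smul_eq_mul]
        exact Nat.mul_le_mul_right _ (hdeg w)
      have c2 : (univ.filter (fun d : {x // Q2 x} => w ∈ sbn G Δ blk d.1 ∩ U)).card ≤ Δ := by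
        have hsub : (univ.filter (fun d : {x // Q2 x} => w ∈ sbn G Δ blk d.1 ∩ U)).image
            Subtype.val ⊆ nb G w := by
          intro x hx
          rw [mem_image] at hx
          obtain ⟨d, hd, rfl⟩ := hx
          rw [mem_filter] at hd
          exact mem_nb'.2 (mem_nb'.1 (hMiN _ hd.2)).symm
        rw [← card_image_of_injective _ Subtype.val_injective]
        exact (card_le_card hsub).trans (hdeg w)
      have hD2 : 2 ≤ Δ := by omega
      refine (Nat.add_le_add c1 c2).trans ?_
      have e1 : 2 * 2 ≤ Δ * Δ := Nat.mul_le_mul hD2 hD2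
      have e2 : 2 * Δ ≤ Δ * Δ := Nat.mul_le_mul_right _ hD2
      have e3 : 4 * (Δ * Δ) ≤ (Δ * Δ) * (Δ * Δ) := Nat.mul_le_mul_right _ e1
      have e4 : Δ ^ 4 = (Δ * Δ) * (Δ * Δ) := by ring
      omega)
  refine ⟨c', U', h1, h2, h3, h4, ?_⟩
  set γ' := min (1 / 10 ^ 26) (min γ (κ * γ)) with hγ'
  have g1 : γ' ≤ 1 / 10 ^ 26 := min_le_left _ _
  have g2 : γ' ≤ γ := (min_le_right _ _).trans (min_le_left _ _)
  have g3 : γ' ≤ κ * γ := (min_le_right _ _).trans (min_le_right _ _)
  -- the uncoloured neighbours which are not of type `Sb`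
  have hfil : ∀ x, (((nb G x ∩ U').filter (fun y => ¬ Sb G Δ blk y)).card : ℝ) ≤
      ((nb G x ∩ U').card : ℝ) := fun x => by exact_mod_cast card_le_card (filter_subset _ _)
  intro x hx
  have hxn : blk x = none := by
    have := hU (h1 hx)
    unfold ss at this
    simpa using this
  -- strong form
  have strong : (Sb G Δ blk x ∨ (nb G x).card ≤ (1 - 1 / 10 ^ 26) * (Δ : ℝ) ∨
      ((Δ : ℝ) / (4 * 10 ^ 26) ≤ ((dn G blk x).card : ℝ) ∧
      ((sbn G Δ blk x).card : ℝ) < Δ / (8 * 10 ^ 26))) →
      (((nb G x \ U').image c').card : ℝ) + ((nb G x ∩ U').card : ℝ) + γ' * Δ ≤ Δ := by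
    intro hor
    by_cases hd : (1 - 1 / 10 ^ 26) * (Δ : ℝ) < ((nb G x).card : ℝ)
    · have hq : Sb G Δ blk x ∨ ((Δ : ℝ) / (4 * 10 ^ 26) ≤ ((dn G blk x).card : ℝ) ∧
          ((sbn G Δ blk x).card : ℝ) < Δ / (8 * 10 ^ 26)) := by
        rcases hor with h | h | h
        · exact Or.inl h
        · exact absurd h (not_le.2 hd)
        · exact Or.inr h
      have e1 := hA.q1 x hxn hd hq
      have e2 : (((nb G x \ U').image c').card : ℝ) + ((nb G x ∩ U').card : ℝ) ≤
        (((nb G x \ U).image c).card : ℝ) + ((nb G x ∩ U).card : ℝ) := by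
        exact_mod_cast persist G c c' U U' h1 h2 x
      have e3 := mul_le_mul_of_nonneg_right g2 hΔ0
      linarith
    · push Not at hd
      have e2 : (((nb G x \ U').image c').card : ℝ) + ((nb G x ∩ U').card : ℝ) ≤
        ((nb G x).card : ℝ) := by exact_mod_cast trivial_bound G c' U' x
      have e3 := mul_le_mul_of_nonneg_right g1 hΔ0
      linarith
  constructor
  · intro hSb
    exact strong (Or.inl hSb)
  · intro hSb
    by_cases hcase : (nb G x).card ≤ (1 - 1 / 10 ^ 26) * (Δ : ℝ) ∨
      ((Δ : ℝ) / (4 * 10 ^ 26) ≤ ((dn G blk x).card : ℝ) ∧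
      ((sbn G Δ blk x).card : ℝ) < Δ / (8 * 10 ^ 26))
    · have e1 := strong (Or.inr hcase)
      have e2 := hfil x
      linarith
    · push Not at hcase
      obtain ⟨hd, hcase⟩ := hcase
      have hdegx : ((nb G x).card : ℝ) ≤ Δ := by exact_mod_cast hdeg x
      have e0 : (((nb G x \ U').card : ℕ) : ℝ) + ((nb G x ∩ U').card : ℝ) = ((nb G x).card : ℝ) := by
        exact_mod_cast card_sdiff_add_card_inter (nb G x) U'
      by_cases hs : (Δ : ℝ) / (8 * 10 ^ 26) ≤ ((sbn G Δ blk x).card : ℝ)
      · -- type q2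
        have e1 := h6 ⟨x, hxn, hSb, hs⟩
        have e2 := hA.q2 x hxn hSb hs
        have e3 : κ * (γ * Δ) ≤ κ * ((sbn G Δ blk x ∩ U).card : ℝ) :=
          mul_le_mul_of_nonneg_left e2 hκ.le
        have e4 : (((nb G x ∩ U').filter (fun y => ¬ Sb G Δ blk y)).card : ℝ) +
            ((sbn G Δ blk x ∩ U ∩ U').card : ℝ) ≤ ((nb G x ∩ U').card : ℝ) := by
          have : ((nb G x ∩ U').filter (fun y => ¬ Sb G Δ blk y)).card +
            (sbn G Δ blk x ∩ U ∩ U').card ≤ (nb G x ∩ U').card := by
            rw [← card_union_of_disjoint]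
            · apply card_le_card
              intro y hy
              rw [mem_union] at hy
              rcases hy with hy | hy
              · exact (mem_filter.1 hy).1
              · rw [mem_inter, mem_inter] at hy
                exact mem_inter.2 ⟨(mem_filter.1 hy.1.1).1, hy.2⟩
            · rw [disjoint_left]
              intro y hy hy'
              rw [mem_inter, mem_inter] at hy'
              exact (mem_filter.1 hy).2 (mem_filter.1 hy'.1.1).2
          exact_mod_cast this
        have e5 : (((nb G x \ U').image c').card : ℝ) ≤ ((nb G x \ U').card : ℝ) := by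
          exact_mod_cast card_image_le
        have e6 := mul_le_mul_of_nonneg_right g3 hΔ0
        nlinarith
      · -- type q3
        have hdn : ((dn G blk x).card : ℝ) < Δ / (4 * 10 ^ 26) := by
          by_contra hcon
          push Not at hcon
          exact hs (hcase hcon)
        push Not at hs
        have hq : Q3 x := ⟨hxn, hd, hSb, hdn, hs⟩
        have e1 := h5 ⟨x, hq⟩
        have e2 := hA.q3 x hxn hd hSb hdn hs
        have e3 : κ * (γ * Δ) ≤ κ * ((Ma x).card : ℝ) := mul_le_mul_of_nonneg_left e2 hκ.le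
        set Sx := (Ma x).filter (fun y => y ∉ U' ∧ c' y ∈ av G N F c U y ∩ (nb G x \ U).image c ∧
          ∀ w ∈ nb G y ∩ U, w ∈ U → w ∉ U' → c' w ≠ c' y) with hSx
        have e4 : ((nb G x \ U').image c').card + Sx.card ≤ (nb G x \ U').card := by
          have s1 : Sx ⊆ nb G x \ U' := by
            intro y hy
            rw [hSx, mem_filter] at hy
            exact mem_sdiff.2 ⟨hMaN x hy.1, hy.2.1⟩
          have s2 : (nb G x \ U').image c' ⊆ ((nb G x \ U') \ Sx).image c' := by
            intro a ha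
            rw [mem_image] at ha
            obtain ⟨y, hy, rfl⟩ := ha
            by_cases hyS : y ∈ Sx
            · rw [hSx, mem_filter] at hyS
              have h7 := (mem_inter.1 hyS.2.2.1).2
              rw [mem_image] at h7
              obtain ⟨z, hz, hzc⟩ := h7
              rw [mem_sdiff] at hz
              refine mem_image.2 ⟨z, mem_sdiff.2 ⟨mem_sdiff.2 ⟨hz.1, fun h => hz.2 (h1 h)⟩, ?_⟩, ?_⟩
              · intro hzS
                rw [hSx, mem_filter] at hzS
                exact hz.2 (mem_inter.1 (mem_filter.1 hzS.1).1).2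
              · rw [h2 z hz.2, hzc]
            · exact mem_image.2 ⟨y, mem_sdiff.2 ⟨hy, hyS⟩, rfl⟩
          have s3 := (card_le_card s2).trans card_image_le
          rw [card_sdiff_of_subset s1] at s3
          have s4 := card_le_card s1
          omega
        have e5 : (((nb G x \ U').image c').card : ℝ) + (Sx.card : ℝ) ≤ ((nb G x \ U').card : ℝ) := by
          exact_mod_cast e4
        have e6 := mul_le_mul_of_nonneg_right g3 hΔ0
        have e7 := hfil x
        have e8 : κ * ((Ma x).card : ℝ) ≤ (Sx.card : ℝ) := e1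
        nlinarith

end Pool.Agent.Work.MP_db9399_all
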